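import Pool.Agent.Helper10.AB.GoalsF4

/-! # Project AB (MP_1ef41b_an): packet FJM, measurability and equivariance of `F̃_J` -/

open MeasureTheory Set Filter Topology
open scoped ContDiff

noncomputable section

namespace Pool.Agent.Helper2.AB.FJMp

open Pool.Agent.Helper24.AB Pool.Agent.Helper10.AB
open Pool.Agent.Helper15.AB (S_XI S_ATL XiI)

lemma isOpen_strip (a : ℝ) : IsOpen (strip a) := by
  have : strip a = (fun w : ℂ => |w.re|) ⁻¹' Iio a := rfl
  rw [this]
  exact isOpen_Iio.preimage (continuous_abs.comp Complex.continuous_re)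

lemma isOpen_YS (a : ℝ) : IsOpen (YS a (strip a)) := by
  have h : YS a (strip a) = (Prod.fst ⁻¹' strip a) ∩
      {y : YY | y.2 0 ^ 2 + y.2 1 ^ 2 + y.2 2 ^ 2 < a ^ 2 - y.1.re ^ 2} := rfl
  rw [h]
  refine ((isOpen_strip a).preimage continuous_fst).inter (isOpen_lt ?_ ?_)
  · fun_prop
  · exact continuous_const.sub ((Complex.continuous_re.comp continuous_fst).pow 2)

/-- The integrand. -/
def Fi (a A : ℝ) (s : ℝ → ℝ) (p : ℂ → ℝ) (f : V4 → ℂ) (J : Fin 3 → ℤ) (y : YY) : ℂ :=
  ((kJ a A s y.1.re * Real.exp (PhiJ a A s p J y.1 + Jd J (XX a A s p y)) : ℝ) : ℂ) *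
    md a A s p f J y

theorem fjm (hPB : S_PB) (hNICE : S_NICE) (hDEC : S_DEC) (hNRM : S_NRM) (hPHC : S_PHC)
    (hEQV : S_EQV) (hATL : S_ATL) : S_FJM := by
  intro a A δ₀ ρ₀ s p B hD f hf hinv
  have ha : 0 < a := hD.prof.a_pos
  have hG : Nice a (fun q => f (Xi a A s p q)) := hPB a A δ₀ ρ₀ s p B hD f hf hinv
  obtain ⟨-, -, hN3, -⟩ := hNICE a _ ha hG
  obtain ⟨hDE, -⟩ := hDEC a _ ha hG
  obtain ⟨-, hPh, ⟨hkc, -⟩, -⟩ := hNRM a A δ₀ ρ₀ s p B hD
  obtain ⟨hPc, -⟩ := hPHC a A δ₀ ρ₀ s p B hD
  obtain ⟨-, -, hE3, -, -, -, hE7, -⟩ := hEQV a A δ₀ ρ₀ s p B hD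
  have hat := hATL a A s hD.prof
  have hmd : ∀ J (y : YY), md a A s p f J y =
      tm J (sl (fun q => f (Xi a A s p q)) ![y.2 0, y.2 1, y.2 2, y.1.re] y.1.im) := by
    intro J y; rfl
  have hmem : ∀ y ∈ YS a (strip a),
      (∑ i : Fin 4, (![y.2 0, y.2 1, y.2 2, y.1.re] : Fin 4 → ℝ) i ^ 2) ≤ a ^ 2 := by
    intro y hy
    have h := hy.2
    simp only [Bs, mem_setOf_eq] at h
    simp [Fin.sum_univ_four]
    linarith
  have hfst : Continuous fun y : YY => y.1 := continuous_fst
  have hre : Continuous fun y : YY => y.1.re := Complex.continuous_re.comp continuous_fst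
  have him : Continuous fun y : YY => y.1.im := Complex.continuous_im.comp continuous_fst
  have hy2 : ∀ i, Continuous fun y : YY => y.2 i := fun i => (continuous_apply i).comp continuous_snd
  constructor
  · intro J
    -- continuity of the integrand
    have hc : ContinuousOn (Fi a A s p f J) (YS a (strip a)) := by
      unfold Fi
      refine ContinuousOn.mul ?_ ?_
      · refine Complex.continuous_ofReal.comp_continuousOn ?_
        refine ((hkc.comp hre).continuousOn).mul ?_
        refine Real.continuous_exp.comp_continuousOn (ContinuousOn.add ?_ ?_)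
        · exact (hPc J).comp hfst.continuousOn fun y hy => hy.1
        · have : (fun y : YY => Jd J (XX a A s p y)) = fun y : YY =>
              uf (alp J) y.1.im * (A + Real.sqrt (Atl a A s y.1.re) * y.2 0) +
              vf (alp' J) y.1.im * (2 * A * y.2 1) + J 2 * (2 * A * y.2 2) - alp J * p y.1 := by
            funext y; exact hE7 J y
          rw [this]
          have hp : ContinuousOn (fun y : YY => p y.1) (YS a (strip a)) := by
            refine hD.pot.smooth.continuousOn.comp hfst.continuousOn fun y hy => ?_
            have h1 : |y.1.re| < a := hy.1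
            show |y.1.re| < 3 * a / 2
            linarith
          have hatl : Continuous fun y : YY => Atl a A s y.1.re := hat.1.continuous.comp hre
          have hu : Continuous fun y : YY => uf (alp J) y.1.im := by
            unfold uf
            exact continuous_const.mul (Real.continuous_exp.comp (continuous_const.mul him))
          have hv : Continuous fun y : YY => vf (alp' J) y.1.im := by
            unfold vf
            exact continuous_const.mul (Real.continuous_exp.comp (continuous_const.mul him).neg)
          refine ContinuousOn.sub (Continuous.continuousOn ?_) (continuousOn_const.mul hp)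
          have hsq := Real.continuous_sqrt.comp hatl
          exact ((hu.mul (continuous_const.add (hsq.mul (hy2 0)))).add
            (hv.mul (continuous_const.mul (hy2 1)))).add
              (continuous_const.mul (continuous_const.mul (hy2 2)))
      · have h1 : md a A s p f J = (fun q : (Fin 4 → ℝ) × ℝ =>
            tm J (sl (fun q => f (Xi a A s p q)) q.1 q.2)) ∘
              fun y : YY => ((![y.2 0, y.2 1, y.2 2, y.1.re] : Fin 4 → ℝ), y.1.im) := by
          funext y; rfl
        rw [h1]
        refine (hN3 J).comp (Continuous.continuousOn ?_) fun y hy => hmem y hy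
        refine Continuous.prodMk (continuous_pi fun i => ?_) him
        fin_cases i
        · exact hy2 0
        · exact hy2 1
        · exact hy2 2
        · exact hre
    have hm : MeasurableSet (YS a (strip a)) := (isOpen_YS a).measurableSet
    have h1 : AEStronglyMeasurable ((YS a (strip a)).indicator (Fi a A s p f J))
        (volume : Measure YY) :=
      (aestronglyMeasurable_indicator_iff hm).mpr (hc.aestronglyMeasurable hm)
    have h2 : AEStronglyMeasurable (fun w : ℂ => ∫ ζ : Fin 3 → ℝ,
        (YS a (strip a)).indicator (Fi a A s p f J) (w, ζ)) (volume : Measure ℂ) := by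
      rw [Measure.volume_eq_prod] at h1
      exact h1.integral_prod_right'
    have h3 : AEStronglyMeasurable (fun w : ℂ => ∫ ζ : Fin 3 → ℝ,
        (YS a (strip a)).indicator (Fi a A s p f J) (w, ζ)) (muS a) := h2.mono_measure Measure.restrict_le_self
    refine h3.congr ?_
    have hms : MeasurableSet (strip a) := (isOpen_strip a).measurableSet
    have hB : ∀ x, MeasurableSet (Bs a x) := fun x => by
      have : IsOpen (Bs a x) := by
        unfold Bs
        exact isOpen_lt (by fun_prop) continuous_const
      exact this.measurableSet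
    refine (ae_restrict_iff' hms).mpr (Filter.Eventually.of_forall fun w hw => ?_)
    unfold FJ
    rw [← integral_indicator (hB w.re)]
    refine integral_congr_ae (Filter.Eventually.of_forall fun ζ => ?_)
    show (YS a (strip a)).indicator (Fi a A s p f J) (w, ζ) = (Bs a w.re).indicator _ ζ
    by_cases hζ : ζ ∈ Bs a w.re
    · rw [indicator_of_mem hζ, indicator_of_mem (show ((w, ζ) : YY) ∈ YS a (strip a) from ⟨hw, hζ⟩)]
      rfl
    · rw [indicator_of_notMem hζ, indicator_of_notMem (fun h : ((w, ζ) : YY) ∈ YS a (strip a) => hζ h.2)]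
  · intro J w hw
    unfold FJ
    have hre' : (w + 2 * Real.pi * Complex.I).re = w.re := by simp
    have him' : (w + 2 * Real.pi * Complex.I).im = w.im + 2 * Real.pi := by simp
    rw [hre']
    refine setIntegral_congr_fun ?_ fun ζ hζ => ?_
    · have : IsOpen (Bs a w.re) := by
        unfold Bs
        exact isOpen_lt (by fun_prop) continuous_const
      exact this.measurableSet
    · have h1 := hPh J w
      have h2 := hE3 J (w, ζ)
      have h3 : md a A s p f J (w + 2 * Real.pi * Complex.I, ζ) = md a A s p f (Jn J) (w, ζ) := by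
        rw [hmd, hmd]
        simp only [hre', him']
        exact hDE _ (hmem (w, ζ) ⟨hw, hζ⟩) J w.im
      simp only at h2 ⊢
      rw [h1, h2, h3]

end Pool.Agent.Helper2.AB.FJMp
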