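import Pool.Agent.Helper10.AB.GoalsF2
import Pool.Agent.Helper58.AB.ATL

/-! # Project AB (MP_1ef41b_an): packet HFD, the series `∑_J g_J^{(k)}(w) J^β e^{J·Z}` -/

open MeasureTheory Set Filter Topology
open scoped ContDiff

noncomputable section

namespace Pool.Agent.Helper2.AB

open Pool.Agent.Helper24.AB Pool.Agent.Helper10.AB

lemma isOpen_strip (a : ℝ) : IsOpen (strip a) := by
  have : strip a = (fun w : ℂ => |w.re|) ⁻¹' Iio a := rfl
  rw [this]
  exact isOpen_Iio.preimage (continuous_abs.comp Complex.continuous_re)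

lemma diff_iter {a : ℝ} {g : ℂ → ℂ} (hg : DifferentiableOn ℂ g (strip a)) (k : ℕ) :
    DifferentiableOn ℂ (deriv^[k] g) (strip a) := by
  induction k with
  | zero => simpa using hg
  | succ k ih =>
    rw [Function.iterate_succ']
    exact ih.deriv (isOpen_strip a)

section
variable {a A δ₀ ρ₀ : ℝ} {s : ℝ → ℝ} {p : ℂ → ℝ} {B : BlockData}

lemma mem_strip (hD : Dat a A δ₀ ρ₀ s p B) {P : V4} (hP : P ∈ Omt a A s p) : P 3 ∈ strip a := by
  have h2 : rfun a A s p P < 0 := hP.2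
  have hat := (Pool.Agent.Helper58.AB.atl a A s hD.prof).2.1 (P 3).re
  unfold rfun at h2
  have h3 : 0 ≤ (ypf p P - A) ^ 2 / Atl a A s (P 3).re := by positivity
  have h4 : 0 ≤ (ymf P ^ 2 + x0 P ^ 2) / (4 * A ^ 2) := by positivity
  have h5 : (P 3).re ^ 2 < a ^ 2 := by linarith
  exact abs_lt_of_sq_lt_sq h5 hD.prof.a_pos.le

lemma contAt_rfun (hD : Dat a A δ₀ ρ₀ s p B) {P : V4} (hP : P ∈ Omt a A s p) :
    ContinuousAt (rfun a A s p) P := by
  have hat := Pool.Agent.Helper58.AB.atl a A s hD.prof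
  have hc3 : Continuous fun P : V4 => P 3 := continuous_apply 3
  have hre : ∀ i : Fin 4, Continuous fun P : V4 => (P i).re := fun i =>
    Complex.continuous_re.comp (continuous_apply i)
  have him : ∀ i : Fin 4, Continuous fun P : V4 => (P i).im := fun i =>
    Complex.continuous_im.comp (continuous_apply i)
  have hxp : Continuous xp := by
    unfold xp
    exact ((hre 0).sub (continuous_const.mul (hre 1))).div_const _
  have hxm : Continuous xm := by
    unfold xm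
    exact ((continuous_const.mul (hre 1)).sub (hre 0)).div_const _
  have hx0 : Continuous x0 := by
    unfold x0
    exact hre 2
  have hp : ContinuousAt p (P 3) := by
    have h1 : P 3 ∈ strip (3 * a / 2) := hP.1
    exact hD.pot.smooth.continuousOn.continuousAt ((isOpen_strip _).mem_nhds h1)
  have hp' : ContinuousAt (fun P : V4 => p (P 3)) P :=
    ContinuousAt.comp (f := fun P : V4 => P 3) (g := p) hp hc3.continuousAt
  have hyp : ContinuousAt (ypf p) P := by
    unfold ypf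
    exact ((Real.continuous_exp.comp (continuous_const.mul (him 3)).neg).continuousAt).mul
      (hxp.continuousAt.add hp')
  have hym : Continuous ymf := by
    unfold ymf
    exact (Real.continuous_exp.comp (continuous_const.mul (him 3))).mul hxm
  have hatl : Continuous fun P : V4 => Atl a A s (P 3).re := hat.1.continuous.comp (hre 3)
  unfold rfun
  refine ContinuousAt.sub (ContinuousAt.add ?_ ?_) ?_
  · exact ((hyp.sub continuousAt_const).pow 2).div hatl.continuousAt (hat.2.1 _).ne'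
  · exact (((hym.pow 2).add (hx0.pow 2)).div_const _).continuousAt
  · exact (continuous_const.sub ((hre 3).pow 2)).continuousAt

end

lemma one_le_nJ (J : Fin 3 → ℤ) : 1 ≤ nJ J := by
  unfold nJ
  have h0 := abs_nonneg (J 0 : ℝ)
  have h1 := abs_nonneg (J 1 : ℝ)
  have h2 := abs_nonneg (J 2 : ℝ)
  linarith

lemma norm_Jpw_le (J : Fin 3 → ℤ) (β : Fin 3 → ℕ) :
    ‖Jpw J β‖ ≤ nJ J ^ (β 0 + β 1 + β 2) := by
  have h0 := abs_nonneg (J 0 : ℝ)
  have h1 := abs_nonneg (J 1 : ℝ)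
  have h2 := abs_nonneg (J 2 : ℝ)
  have hn : ∀ i : Fin 3, ‖(J i : ℂ)‖ ≤ nJ J := by
    intro i
    rw [Complex.norm_intCast]
    unfold nJ
    fin_cases i <;> simp <;> linarith
  have hn1 := one_le_nJ J
  unfold Jpw
  rw [norm_mul, norm_mul, norm_pow, norm_pow, norm_pow, pow_add, pow_add]
  gcongr <;> exact hn _

lemma Jpw_add (J : Fin 3 → ℤ) (β : Fin 3 → ℕ) (j : Fin 3) :
    Jpw J (β + Pi.single j 1) = (J j : ℂ) * Jpw J β := by
  unfold Jpw
  fin_cases j <;> simp [Pi.single_apply] <;> ring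

/-- The term of the series. -/
def tr (g : (Fin 3 → ℤ) → ℂ → ℂ) (i : ℕ × (Fin 3 → ℕ)) (J : Fin 3 → ℤ) (P : V4) : ℂ :=
  deriv^[i.1] (g J) (P 3) * Jpw J i.2 * mon J P

lemma HH_eq (g : (Fin 3 → ℤ) → ℂ → ℂ) (i : ℕ × (Fin 3 → ℕ)) :
    HH g i = fun P => ∑' J, tr g i J P := rfl

lemma hasFDerivAt_mon (J : Fin 3 → ℤ) (P : V4) : HasFDerivAt (mon J) (mon J P • lJ J) P := by
  have h : mon J = fun P => Complex.exp (lJ J P) := by
    funext P
    simp [mon, lJ]
  rw [h]
  exact (lJ J).hasFDerivAt.cexp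

section
variable {a : ℝ} {g : (Fin 3 → ℤ) → ℂ → ℂ}

lemma hasFDerivAt_tr (i : ℕ × (Fin 3 → ℕ)) (J : Fin 3 → ℤ) (P : V4)
    (hg : DifferentiableOn ℂ (g J) (strip a)) (hP : P 3 ∈ strip a) :
    HasFDerivAt (tr g i J) (∑ j : Fin 4, tr g (nxt i j) J P •
      (ContinuousLinearMap.proj (R := ℂ) (φ := fun _ : Fin 4 => ℂ) j)) P := by
  have h1 : HasDerivAt (deriv^[i.1] (g J)) (deriv (deriv^[i.1] (g J)) (P 3)) (P 3) :=
    ((diff_iter hg i.1).differentiableAt ((isOpen_strip a).mem_nhds hP)).hasDerivAt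
  have h2 : HasFDerivAt (fun P : V4 => P 3)
      (ContinuousLinearMap.proj (R := ℂ) (φ := fun _ : Fin 4 => ℂ) 3) P :=
    (ContinuousLinearMap.proj (R := ℂ) (φ := fun _ : Fin 4 => ℂ) 3).hasFDerivAt
  have h3 := h1.comp_hasFDerivAt P h2
  have h4 := (h3.mul_const (Jpw J i.2)).mul (hasFDerivAt_mon J P)
  have h5 : tr g i J = fun P => (deriv^[i.1] (g J) ∘ fun P : V4 => P 3) P * Jpw J i.2 * mon J P := rfl
  rw [h5]
  refine h4.congr_fderiv ?_
  have hs : deriv (deriv^[i.1] (g J)) = deriv^[i.1 + 1] (g J) := by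
    rw [Function.iterate_succ']
    rfl
  rw [hs]
  ext v
  simp only [Fin.sum_univ_four, nxt, tr, Jpw_add, lJ, ContinuousLinearMap.add_apply,
    ContinuousLinearMap.smul_apply, ContinuousLinearMap.proj_apply, smul_eq_mul,
    Function.comp_apply]
  ring

end

theorem hfd (hPTW : S_PTW) (hLIP : S_LIP) (hWW : S_WW) : S_HFD := by
  intro a A δ₀ ρ₀ s p B hD g hg
  have hsum : Summable (fun J : Fin 3 → ℤ => (nJ J ^ 4)⁻¹) := hWW.2.2.2.2.2.1
  have hdiff : ∀ J, DifferentiableOn ℂ (g J) (strip a) := fun J => hg.1 J (mem_univ _)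
  -- the basic bound
  have key : ∀ (i : ℕ × (Fin 3 → ℕ)) (T : ℝ), 0 < T → ∃ C : ℝ, 0 ≤ C ∧ ∀ J, ∀ P ∈ Omt a A s p,
      |(P 3).im| ≤ T → ‖tr g i J P‖ * Real.sqrt (|rfun a A s p P| ^ 5) ≤ C * (nJ J ^ 4)⁻¹ := by
    intro i T hT
    obtain ⟨C₁, hC₁, h1⟩ := hPTW a A δ₀ ρ₀ s p B hD T hT
    obtain ⟨C₂, h2⟩ := hg.2 i.1 (2 * (i.2 0 + i.2 1 + i.2 2) + 8) (T + 1)
    have hC₂ : 0 ≤ C₂ := by
      refine le_trans ?_ (h2 0 (mem_univ _)).2
      have := one_le_nJ 0
      have h3 : 0 ≤ ∫ w in SB a (T + 1), (Real.exp (-PhiJ a A s p 0 w) * ‖deriv^[i.1] (g 0) w‖) ^ 2 :=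
        integral_nonneg fun w => sq_nonneg _
      positivity
    refine ⟨Real.sqrt (C₁ * C₂), Real.sqrt_nonneg _, ?_⟩
    intro J P hP hT'
    have h3 := h1 J (deriv^[i.1] (g J)) (diff_iter (hdiff J) i.1) (h2 J (mem_univ _)).1 P hP hT'
    have h4 := (h2 J (mem_univ _)).2
    have hn := one_le_nJ J
    have hn0 : 0 < nJ J := by linarith
    set I := ∫ w in SB a (T + 1), (Real.exp (-PhiJ a A s p J w) * ‖deriv^[i.1] (g J) w‖) ^ 2 with hI
    set m := i.2 0 + i.2 1 + i.2 2 with hm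
    have h5 : ‖tr g i J P‖ ≤ ‖deriv^[i.1] (g J) (P 3) * mon J P‖ * nJ J ^ m := by
      have : tr g i J P = deriv^[i.1] (g J) (P 3) * mon J P * Jpw J i.2 := by
        unfold tr; ring
      rw [this, norm_mul]
      gcongr
      exact norm_Jpw_le J i.2
    have h6 : (‖tr g i J P‖ * Real.sqrt (|rfun a A s p P| ^ 5)) ^ 2 ≤
        (Real.sqrt (C₁ * C₂) * (nJ J ^ 4)⁻¹) ^ 2 := by
      rw [mul_pow, mul_pow, Real.sq_sqrt (by positivity), Real.sq_sqrt (by positivity)]
      calc ‖tr g i J P‖ ^ 2 * |rfun a A s p P| ^ 5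
          ≤ (‖deriv^[i.1] (g J) (P 3) * mon J P‖ * nJ J ^ m) ^ 2 * |rfun a A s p P| ^ 5 := by
            gcongr
        _ = (‖deriv^[i.1] (g J) (P 3) * mon J P‖ ^ 2 * |rfun a A s p P| ^ 5) *
              (nJ J ^ (2 * m + 8)) * ((nJ J ^ 4)⁻¹) ^ 2 := by
            field_simp
            ring
        _ ≤ (C₁ * I) * (nJ J ^ (2 * m + 8)) * ((nJ J ^ 4)⁻¹) ^ 2 := by
            gcongr
        _ = C₁ * (I * nJ J ^ (2 * m + 8)) * ((nJ J ^ 4)⁻¹) ^ 2 := by ring
        _ ≤ C₁ * C₂ * ((nJ J ^ 4)⁻¹) ^ 2 := by gcongr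
    exact le_of_sq_le_sq h6 (by positivity)
  have hpos : ∀ P ∈ Omt a A s p, 0 < |rfun a A s p P| := by
    intro P hP
    exact abs_pos.mpr (ne_of_lt hP.2)
  -- (1)
  have hS : ∀ i : ℕ × (Fin 3 → ℕ), ∀ P ∈ Omt a A s p,
      Summable (fun J : Fin 3 → ℤ => ‖tr g i J P‖) := by
    intro i P hP
    obtain ⟨C, hC, h1⟩ := key i (|(P 3).im| + 1) (by positivity)
    have hR : 0 < Real.sqrt (|rfun a A s p P| ^ 5) := Real.sqrt_pos.mpr (pow_pos (hpos P hP) 5)
    refine Summable.of_nonneg_of_le (fun J => norm_nonneg _) (fun J => ?_)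
      (hsum.mul_left (C / Real.sqrt (|rfun a A s p P| ^ 5)))
    have h2 := h1 J P hP (by linarith)
    rw [div_mul_eq_mul_div, le_div_iff₀ hR]
    exact h2
  refine ⟨hS, ?_, ?_⟩
  · -- (2)
    intro i P hP
    set r₀ := |rfun a A s p P| with hr₀
    have hr₀pos : 0 < r₀ := hpos P hP
    obtain ⟨c, hc, hc1, hLP⟩ := hLIP a A δ₀ ρ₀ s p B hD (|(P 3).im| + 1) (by positivity)
    obtain ⟨-, -, hball⟩ := hLP P hP (by linarith)
    -- a small ball
    have hca : ContinuousAt (fun P' => |rfun a A s p P'|) P := (contAt_rfun hD hP).abs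
    have hev : ∀ᶠ P' in 𝓝 P, r₀ / 2 < |rfun a A s p P'| :=
      hca.eventually (lt_mem_nhds (show r₀ / 2 < r₀ by linarith))
    have hev2 : ∀ᶠ P' in 𝓝 P, |(P' 3).im| < |(P 3).im| + 1 := by
      have : ContinuousAt (fun P' : V4 => |(P' 3).im|) P :=
        (continuous_abs.comp (Complex.continuous_im.comp (continuous_apply 3))).continuousAt
      exact this.eventually (gt_mem_nhds (by linarith))
    obtain ⟨ε₁, hε₁, hb1⟩ := Metric.eventually_nhds_iff_ball.mp (hev.and hev2)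
    set ε := min ε₁ (c * r₀) with hε
    have hεpos : 0 < ε := lt_min hε₁ (by positivity)
    have hsub : ∀ P' ∈ Metric.ball P ε, P' ∈ Omt a A s p ∧ r₀ / 2 ≤ |rfun a A s p P'| ∧
        |(P' 3).im| ≤ |(P 3).im| + 1 := by
      intro P' hP'
      have h1 := hb1 P' (Metric.ball_subset_ball (min_le_left _ _) hP')
      refine ⟨(hball P' fun j => ?_).1, h1.1.le, h1.2.le⟩
      have h2 : ‖(P' - P) j‖ ≤ ‖P' - P‖ := norm_le_pi_norm _ j
      have h3 : ‖P' - P‖ < ε := by rwa [Metric.mem_ball, dist_eq_norm] at hP'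
      have h4 : ε ≤ c * r₀ := min_le_right _ _
      simp only [Pi.sub_apply] at h2
      linarith
    choose K hK0 hK using fun i : ℕ × (Fin 3 → ℕ) => key i (|(P 3).im| + 1) (by positivity)
    set R := Real.sqrt ((r₀ / 2) ^ 5) with hRdef
    have hR : 0 < R := Real.sqrt_pos.mpr (by positivity)
    have hbd : ∀ (i : ℕ × (Fin 3 → ℕ)) J, ∀ P' ∈ Metric.ball P ε,
        ‖tr g i J P'‖ ≤ K i / R * (nJ J ^ 4)⁻¹ := by
      intro i J P' hP'
      obtain ⟨h1, h2, h3⟩ := hsub P' hP'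
      have h4 := hK i J P' h1 h3
      rw [div_mul_eq_mul_div, le_div_iff₀ hR]
      refine le_trans (mul_le_mul_of_nonneg_left ?_ (norm_nonneg _)) h4
      exact Real.sqrt_le_sqrt (pow_le_pow_left₀ (by positivity) h2 5)
    have hmain := hasFDerivAt_tsum_of_isPreconnected (𝕜 := ℂ) (f := fun J => tr g i J)
      (f' := fun J P' => ∑ j : Fin 4, tr g (nxt i j) J P' •
        (ContinuousLinearMap.proj (R := ℂ) (φ := fun _ : Fin 4 => ℂ) j))
      (u := fun J => ∑ j : Fin 4, K (nxt i j) / R * (nJ J ^ 4)⁻¹)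
      (x₀ := P) (x := P) (s := Metric.ball P ε)
      (summable_sum fun j _ => hsum.mul_left _) Metric.isOpen_ball
      (convex_ball P ε).isPreconnected
      (fun J P' hP' => hasFDerivAt_tr i J P' (hdiff J) (mem_strip hD (hsub P' hP').1))
      (fun J P' hP' => by
        refine (norm_sum_le _ _).trans (Finset.sum_le_sum fun j _ => ?_)
        rw [norm_smul]
        have h1 : ‖(ContinuousLinearMap.proj (R := ℂ) (φ := fun _ : Fin 4 => ℂ) j)‖ ≤ 1 :=
          ContinuousLinearMap.opNorm_le_bound _ zero_le_one fun v => by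
            rw [one_mul]
            exact norm_le_pi_norm v j
        have h2 := hbd (nxt i j) J P' hP'
        calc ‖tr g (nxt i j) J P'‖ * ‖(ContinuousLinearMap.proj (R := ℂ) (φ := fun _ : Fin 4 => ℂ) j)‖
            ≤ ‖tr g (nxt i j) J P'‖ * 1 := by gcongr
          _ ≤ _ := by rw [mul_one]; exact h2)
      (Metric.mem_ball_self hεpos) (hS i P hP).of_norm (Metric.mem_ball_self hεpos)
    rw [HH_eq]
    refine hmain.congr_fderiv ?_
    have hsj : ∀ j : Fin 4, Summable (fun J => tr g (nxt i j) J P) := fun j =>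
      (hS (nxt i j) P hP).of_norm
    rw [Summable.tsum_finsetSum (fun j _ => (hsj j).smul_const _)]
    refine Finset.sum_congr rfl fun j _ => ?_
    rw [(hsj j).tsum_smul_const]
    rfl
  · -- (3)
    intro i T
    obtain ⟨C, hC, h1⟩ := key i (max T 1) (by positivity)
    refine ⟨(C * ∑' J : Fin 3 → ℤ, (nJ J ^ 4)⁻¹) ^ 2, ?_⟩
    intro P hP hT
    have hR0 : 0 ≤ Real.sqrt (|rfun a A s p P| ^ 5) := Real.sqrt_nonneg _
    have h2 : ‖HH g i P‖ * Real.sqrt (|rfun a A s p P| ^ 5) ≤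
        C * ∑' J : Fin 3 → ℤ, (nJ J ^ 4)⁻¹ := by
      calc ‖HH g i P‖ * Real.sqrt (|rfun a A s p P| ^ 5)
          ≤ (∑' J, ‖tr g i J P‖) * Real.sqrt (|rfun a A s p P| ^ 5) := by
            gcongr
            exact norm_tsum_le_tsum_norm (hS i P hP)
        _ = ∑' J, ‖tr g i J P‖ * Real.sqrt (|rfun a A s p P| ^ 5) := by
            rw [tsum_mul_right]
        _ ≤ ∑' J : Fin 3 → ℤ, C * (nJ J ^ 4)⁻¹ := by
            refine Summable.tsum_le_tsum (fun J => h1 J P hP (hT.trans (le_max_left _ _)))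
              ((hS i P hP).mul_right _) (hsum.mul_left _)
        _ = _ := by rw [tsum_mul_left]
    calc ‖HH g i P‖ ^ 2 * |rfun a A s p P| ^ 5
        = (‖HH g i P‖ * Real.sqrt (|rfun a A s p P| ^ 5)) ^ 2 := by
          rw [mul_pow, Real.sq_sqrt (by positivity)]
      _ ≤ _ := by gcongr

end Pool.Agent.Helper2.AB
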